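import Pool.Agent.H19.SMA.Inst

/-!
# Stable matchings in the attribute model: vectors
-/

set_option autoImplicit false

namespace Pool.SMA

/-- An instance of the stable marriage problem in the `d`-attribute model, with `n` men and `n`
women: every person has a preference vector and an attribute vector of length `d`. -/
structure AttrInst (d n : ℕ) where
  /-- preference vectors of the men -/
  prefM : Fin n → Fin d → ℤ
  /-- attribute vectors of the men -/
  attrM : Fin n → Fin d → ℤ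
  /-- preference vectors of the women -/
  prefW : Fin n → Fin d → ℤ
  /-- attribute vectors of the women -/
  attrW : Fin n → Fin d → ℤ

namespace AttrInst

variable {d n : ℕ}

/-- The value of the woman `w` for the man `m`: the dot product of his preference vector and of her
attribute vector. Men prefer women of larger value. -/
def valM (I : AttrInst d n) (m w : Fin n) : ℤ := ∑ s, I.prefM m s * I.attrW w s

/-- The value of the man `m` for the woman `w`. -/
def valW (I : AttrInst d n) (w m : Fin n) : ℤ := ∑ s, I.prefW w s * I.attrM m s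

/-- There are no ties: every person ranks the persons of the other side strictly. -/
structure Strict (I : AttrInst d n) : Prop where
  men : ∀ m, Function.Injective (I.valM m)
  women : ∀ w, Function.Injective (I.valW w)

/-- All coordinates of all vectors are between `1` and `B`. -/
structure Bdd (I : AttrInst d n) (B : ℤ) : Prop where
  prefM : ∀ x s, 1 ≤ I.prefM x s ∧ I.prefM x s ≤ B
  attrM : ∀ x s, 1 ≤ I.attrM x s ∧ I.attrM x s ≤ B
  prefW : ∀ x s, 1 ≤ I.prefW x s ∧ I.prefW x s ≤ B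
  attrW : ∀ x s, 1 ≤ I.attrW x s ∧ I.attrW x s ≤ B

/-- The perfect matching `σ` (the man `m` is matched with the woman `σ m`) is stable. -/
def Stable (I : AttrInst d n) (σ : Equiv.Perm (Fin n)) : Prop :=
  ∀ m w : Fin n, ¬ (I.valM m (σ m) < I.valM m w ∧ I.valW w (σ.symm w) < I.valW w m)

/-- Every woman likes her partner in `τ` at least as much as her partner in `σ`. -/
def WLe (I : AttrInst d n) (σ τ : Equiv.Perm (Fin n)) : Prop :=
  ∀ w, I.valW w (σ.symm w) ≤ I.valW w (τ.symm w)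

end AttrInst

variable {m : ℕ}

/-- The agents, numbered. -/
def nm (m : ℕ) : Ag m ≃ Fin (m * (m + 3)) := finProdFinEquiv

/-- The instance. -/
def inst (r : Fin m → Fin m → Bool) : AttrInst 2 (m * (m + 3)) where
  prefM x := ![2 * ((m : ℤ) + 3) * TT m * gw m ((nm m).symm x).1.val ((nm m).symm x).2.val, 1]
  attrM x := ![pl r ((nm m).symm x).1 (nx m ((nm m).symm x).2.val),
    TT m * (sm r ((nm m).symm x).1 ((nm m).symm x).2.val -
      2 * pl r ((nm m).symm x).1 (nx m ((nm m).symm x).2.val) ^ 2) + tie ((nm m).symm x) +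
      9 * TT m * ((m : ℤ) + 3) ^ 4]
  prefW x := ![4 * TT m * pl r ((nm m).symm x).1 ((nm m).symm x).2.val, 1]
  attrW x := ![gw m ((nm m).symm x).1.val ((nm m).symm x).2.val,
    TT m * (sw m ((nm m).symm x).2.val -
      ((m : ℤ) + 3) * gw m ((nm m).symm x).1.val ((nm m).symm x).2.val ^ 2) + tie ((nm m).symm x) +
      4 * TT m * ((m : ℤ) + 3) ^ 3]

lemma valM_eq (r : Fin m → Fin m → Bool) (x : Fin (m * (m + 3))) : ∃ c : ℤ, ∀ y,
    (inst r).valM x y = um ((nm m).symm x) ((nm m).symm y) + c := by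
  refine ⟨TT m * ((m : ℤ) + 3) * gw m ((nm m).symm x).1.val ((nm m).symm x).2.val ^ 2 +
    4 * TT m * ((m : ℤ) + 3) ^ 3, fun y => ?_⟩
  simp only [AttrInst.valM, inst, Fin.sum_univ_two, Matrix.cons_val_zero, Matrix.cons_val_one,
    um, VV]
  ring

lemma valW_eq (r : Fin m → Fin m → Bool) (x : Fin (m * (m + 3))) : ∃ c : ℤ, ∀ y,
    (inst r).valW x y = uw r ((nm m).symm x) ((nm m).symm y) + c := by
  refine ⟨2 * TT m * pl r ((nm m).symm x).1 ((nm m).symm x).2.val ^ 2 +
    9 * TT m * ((m : ℤ) + 3) ^ 4, fun y => ?_⟩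
  simp only [AttrInst.valW, inst, Fin.sum_univ_two, Matrix.cons_val_zero, Matrix.cons_val_one,
    uw, UU]
  ring

lemma pc_symm (σ : Equiv.Perm (Ag m)) (x : Fin (m * (m + 3))) :
    ((nm m).permCongr σ).symm x = nm m (σ.symm ((nm m).symm x)) := rfl

lemma stable_iff (r : Fin m → Fin m → Bool) (σ : Equiv.Perm (Ag m)) :
    (inst r).Stable ((nm m).permCongr σ) ↔ Stb um (uw r) σ := by
  constructor
  · intro h a w
    have h1 := h (nm m a) (nm m w)
    obtain ⟨c, hc⟩ := valM_eq r (nm m a)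
    obtain ⟨c', hc'⟩ := valW_eq r (nm m w)
    rw [hc, hc, hc', hc', pc_symm, Equiv.permCongr_apply, Equiv.symm_apply_apply,
      Equiv.symm_apply_apply, Equiv.symm_apply_apply, Equiv.symm_apply_apply] at h1
    rintro ⟨h2, h3⟩
    exact h1 ⟨by linarith, by linarith⟩
  · intro h x y
    have h1 := h ((nm m).symm x) ((nm m).symm y)
    obtain ⟨c, hc⟩ := valM_eq r x
    obtain ⟨c', hc'⟩ := valW_eq r y
    rw [hc, hc, hc', hc', pc_symm, Equiv.permCongr_apply, Equiv.symm_apply_apply,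
      Equiv.symm_apply_apply]
    rintro ⟨h2, h3⟩
    exact h1 ⟨by linarith, by linarith⟩

lemma wle_iff (r : Fin m → Fin m → Bool) (σ τ : Equiv.Perm (Ag m)) :
    (inst r).WLe ((nm m).permCongr σ) ((nm m).permCongr τ) ↔
      ∀ w, uw r w (σ.symm w) ≤ uw r w (τ.symm w) := by
  constructor
  · intro h w
    have h1 := h (nm m w)
    obtain ⟨c', hc'⟩ := valW_eq r (nm m w)
    rw [hc', hc', pc_symm, pc_symm, Equiv.symm_apply_apply, Equiv.symm_apply_apply,
      Equiv.symm_apply_apply] at h1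
    linarith
  · intro h y
    have h1 := h ((nm m).symm y)
    obtain ⟨c', hc'⟩ := valW_eq r y
    rw [hc', hc', pc_symm, pc_symm, Equiv.symm_apply_apply, Equiv.symm_apply_apply]
    linarith

lemma strict (r : Fin m → Fin m → Bool) : (inst r).Strict where
  men := by
    intro x y y' h
    obtain ⟨c, hc⟩ := valM_eq r x
    rw [hc, hc] at h
    exact (nm m).symm.injective (lex_inj _ _ (add_right_cancel h))
  women := by
    intro x y y' h
    obtain ⟨c, hc⟩ := valW_eq r x
    rw [hc, hc] at h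
    exact (nm m).symm.injective (lex_inj _ _ (add_right_cancel h))

/-! ### Bounds -/

lemma gw_bd (i : Fin m) (k : ℕ) : 1 ≤ gw m i.val k ∧ gw m i.val k ≤ 2 * m := by
  have hi := i.isLt
  unfold gw
  split_ifs <;> omega

lemma sw_ge (k : ℕ) : -(m : ℤ) ≤ sw m k := by
  unfold sw
  split_ifs <;> omega

lemma bq_bd (i : Fin m) (k : ℕ) : 1 ≤ bq i k ∧ bq i k ≤ 2 * m := by
  have hi := i.isLt
  unfold bq
  split_ifs <;> omega

lemma pl_bd (r : Fin m → Fin m → Bool) (i : Fin m) (k : ℕ) :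
    1 ≤ pl r i k ∧ pl r i k ≤ 2 * ((m : ℤ) + 3) ^ 2 := by
  have h1 := bq_bd i k
  have h2 := bo_le r i k
  have h3 : (1 : ℤ) ≤ (bq i k : ℤ) := by exact_mod_cast h1.1
  have h4 : (bq i k : ℤ) ≤ 2 * m := by exact_mod_cast h1.2
  have h5 : (bo r i k : ℤ) ≤ m := by exact_mod_cast h2
  have h6 : (0 : ℤ) ≤ (bo r i k : ℤ) := by positivity
  have h7 : (0 : ℤ) ≤ m := by positivity
  unfold pl
  constructor
  · nlinarith
  · have h8 : ((m : ℤ) + 3) * (bq i k : ℤ) ≤ ((m : ℤ) + 3) * (2 * m) :=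
      mul_le_mul_of_nonneg_left h4 (by linarith)
    nlinarith

lemma sm_bd (r : Fin m → Fin m → Bool) (i : Fin m) (k : ℕ) (hk : k ≤ m + 2) :
    0 ≤ sm r i k ∧ sm r i k ≤ 8 * ((m : ℤ) + 3) ^ 4 := by
  by_cases h : k = m + 2
  · unfold sm
    rw [if_pos h]
    exact ⟨le_rfl, by positivity⟩
  · have h1 := sm_pos r i k (by omega)
    refine ⟨by linarith, ?_⟩
    unfold sm
    rw [if_neg h]
    have h2 := pl_bd r i (nx m k)
    have h3 := pl_bd r i k
    have h4 : (pl r i (nx m k) - pl r i k) ^ 2 ≤ (2 * ((m : ℤ) + 3) ^ 2) ^ 2 := by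
      apply sq_le_sq'
      · linarith [h2.1, h3.2]
      · linarith [h2.2, h3.1]
    have h5 : (2 * ((m : ℤ) + 3) ^ 2) ^ 2 = 4 * ((m : ℤ) + 3) ^ 4 := by ring
    linarith

lemma TT_bd (h : 0 < m) : 1 ≤ TT m ∧ TT m ≤ ((m : ℤ) + 3) ^ 2 := by
  unfold TT
  have h1 : (1 : ℤ) ≤ m := by exact_mod_cast h
  constructor <;> nlinarith

lemma bdd (r : Fin m → Fin m → Bool) : (inst r).Bdd (20 * ((m : ℤ) + 3) ^ 6) := by
  have hm : ∀ x : Fin (m * (m + 3)), 0 < m := fun x => by
    have := ((nm m).symm x).1.isLt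
    omega
  obtain ⟨a, ha⟩ : ∃ a : ℤ, a = (m : ℤ) + 3 := ⟨_, rfl⟩
  have hma : (m : ℤ) = a - 3 := by linarith
  have hm0 : (0 : ℤ) ≤ m := by positivity
  have ha3 : 3 ≤ a := by linarith
  have ha2 : 0 < a ^ 2 := by positivity
  have hup : ∀ e : ℕ, e ≤ 6 → a ^ e ≤ a ^ 6 := fun e he => pow_le_pow_right₀ (by linarith) he
  have h0 := hup 0 (by norm_num)
  have h4 := hup 4 (by norm_num)
  have h5 := hup 5 (by norm_num)
  have h22 := hup 2 (by norm_num)
  have h1' := hup 1 (by norm_num)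
  rw [pow_zero] at h0
  rw [pow_one] at h1'
  constructor
  · intro x s
    have hT := TT_bd (hm x)
    have hg := gw_bd ((nm m).symm x).1 ((nm m).symm x).2.val
    generalize hgg : gw m ((nm m).symm x).1.val ((nm m).symm x).2.val = g at hg
    fin_cases s
    · change 1 ≤ 2 * ((m : ℤ) + 3) * TT m * gw m ((nm m).symm x).1.val ((nm m).symm x).2.val ∧
        2 * ((m : ℤ) + 3) * TT m * gw m ((nm m).symm x).1.val ((nm m).symm x).2.val ≤
          20 * ((m : ℤ) + 3) ^ 6
      rw [hgg, ← ha]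
      rw [← ha] at hT
      have e1 : 1 ≤ TT m * g := by nlinarith [hT.1, hg.1]
      have e2 : TT m * g ≤ a ^ 2 * (2 * a) := by
        apply mul_le_mul hT.2 (by linarith [hg.2]) (by linarith [hg.1]) ha2.le
      constructor
      · nlinarith
      · have e3 : 2 * a * (TT m * g) ≤ 2 * a * (a ^ 2 * (2 * a)) :=
          mul_le_mul_of_nonneg_left e2 (by linarith)
        nlinarith
    · change 1 ≤ (1 : ℤ) ∧ (1 : ℤ) ≤ 20 * ((m : ℤ) + 3) ^ 6
      rw [← ha]
      exact ⟨le_rfl, by linarith⟩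
  · intro x s
    have hT := TT_bd (hm x)
    have hp := pl_bd r ((nm m).symm x).1 (nx m ((nm m).symm x).2.val)
    have hs := sm_bd r ((nm m).symm x).1 ((nm m).symm x).2.val (by
      have := ((nm m).symm x).2.isLt
      omega)
    have ht := tie_lt ((nm m).symm x)
    have ht' := tie_nonneg ((nm m).symm x)
    fin_cases s
    · change 1 ≤ pl r ((nm m).symm x).1 (nx m ((nm m).symm x).2.val) ∧
        pl r ((nm m).symm x).1 (nx m ((nm m).symm x).2.val) ≤ 20 * ((m : ℤ) + 3) ^ 6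
      rw [← ha] at hp ⊢
      exact ⟨hp.1, by linarith [hp.2]⟩
    · change 1 ≤ TT m * (sm r ((nm m).symm x).1 ((nm m).symm x).2.val -
          2 * pl r ((nm m).symm x).1 (nx m ((nm m).symm x).2.val) ^ 2) + tie ((nm m).symm x) +
          9 * TT m * ((m : ℤ) + 3) ^ 4 ∧
        TT m * (sm r ((nm m).symm x).1 ((nm m).symm x).2.val -
          2 * pl r ((nm m).symm x).1 (nx m ((nm m).symm x).2.val) ^ 2) + tie ((nm m).symm x) +
          9 * TT m * ((m : ℤ) + 3) ^ 4 ≤ 20 * ((m : ℤ) + 3) ^ 6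
      generalize pl r ((nm m).symm x).1 (nx m ((nm m).symm x).2.val) = p at hp ⊢
      generalize sm r ((nm m).symm x).1 ((nm m).symm x).2.val = q at hs ⊢
      rw [← ha] at hp hs hT ⊢
      have e1 : p ^ 2 ≤ 4 * a ^ 4 := by
        have : p ^ 2 ≤ (2 * a ^ 2) ^ 2 := by
          apply sq_le_sq'
          · linarith [hp.1]
          · exact hp.2
        calc p ^ 2 ≤ (2 * a ^ 2) ^ 2 := this
          _ = 4 * a ^ 4 := by ring
      have e2 : 0 ≤ p ^ 2 := by positivity
      have e3 : -(8 * a ^ 4) ≤ q - 2 * p ^ 2 := by linarith [hs.1]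
      have e4 : q - 2 * p ^ 2 ≤ 8 * a ^ 4 := by linarith [hs.2]
      have e5 : TT m * (-(8 * a ^ 4)) ≤ TT m * (q - 2 * p ^ 2) :=
        mul_le_mul_of_nonneg_left e3 (by linarith [hT.1])
      have e6 : TT m * (q - 2 * p ^ 2) ≤ TT m * (8 * a ^ 4) :=
        mul_le_mul_of_nonneg_left e4 (by linarith [hT.1])
      have e7 : 1 ≤ TT m * a ^ 4 := by
        have e8 : 1 ≤ a ^ 4 := one_le_pow₀ (by linarith)
        nlinarith [hT.1]
      have e9 : TT m * a ^ 4 ≤ a ^ 2 * a ^ 4 := mul_le_mul_of_nonneg_right hT.2 (by positivity)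
      have e10 : a ^ 2 * a ^ 4 = a ^ 6 := by ring
      constructor
      · linarith
      · have e11 : TT m ≤ a ^ 6 := by linarith [hT.2]
        linarith
  · intro x s
    have hT := TT_bd (hm x)
    have hp := pl_bd r ((nm m).symm x).1 ((nm m).symm x).2.val
    fin_cases s
    · change 1 ≤ 4 * TT m * pl r ((nm m).symm x).1 ((nm m).symm x).2.val ∧
        4 * TT m * pl r ((nm m).symm x).1 ((nm m).symm x).2.val ≤ 20 * ((m : ℤ) + 3) ^ 6
      generalize pl r ((nm m).symm x).1 ((nm m).symm x).2.val = p at hp ⊢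
      rw [← ha] at hp hT ⊢
      have e1 : 1 ≤ TT m * p := by nlinarith [hT.1, hp.1]
      have e2 : TT m * p ≤ a ^ 2 * (2 * a ^ 2) :=
        mul_le_mul hT.2 hp.2 (by linarith [hp.1]) ha2.le
      have e3 : a ^ 2 * (2 * a ^ 2) = 2 * a ^ 4 := by ring
      constructor <;> linarith
    · change 1 ≤ (1 : ℤ) ∧ (1 : ℤ) ≤ 20 * ((m : ℤ) + 3) ^ 6
      rw [← ha]
      exact ⟨le_rfl, by linarith⟩
  · intro x s
    have hT := TT_bd (hm x)
    have hg := gw_bd ((nm m).symm x).1 ((nm m).symm x).2.val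
    have hs := sw_le m ((nm m).symm x).2.val
    have hs' := sw_ge (m := m) ((nm m).symm x).2.val
    have ht := tie_lt ((nm m).symm x)
    have ht' := tie_nonneg ((nm m).symm x)
    fin_cases s
    · change 1 ≤ gw m ((nm m).symm x).1.val ((nm m).symm x).2.val ∧
        gw m ((nm m).symm x).1.val ((nm m).symm x).2.val ≤ 20 * ((m : ℤ) + 3) ^ 6
      rw [← ha]
      exact ⟨hg.1, by linarith [hg.2]⟩
    · change 1 ≤ TT m * (sw m ((nm m).symm x).2.val -
          ((m : ℤ) + 3) * gw m ((nm m).symm x).1.val ((nm m).symm x).2.val ^ 2) +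
          tie ((nm m).symm x) + 4 * TT m * ((m : ℤ) + 3) ^ 3 ∧
        TT m * (sw m ((nm m).symm x).2.val -
          ((m : ℤ) + 3) * gw m ((nm m).symm x).1.val ((nm m).symm x).2.val ^ 2) +
          tie ((nm m).symm x) + 4 * TT m * ((m : ℤ) + 3) ^ 3 ≤ 20 * ((m : ℤ) + 3) ^ 6
      generalize gw m ((nm m).symm x).1.val ((nm m).symm x).2.val = g at hg ⊢
      generalize sw m ((nm m).symm x).2.val = q at hs hs' ⊢
      rw [hma] at hg hs'
      rw [← ha] at hT ⊢
      have e1 : g ^ 2 ≤ (2 * (a - 3)) ^ 2 := by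
        apply sq_le_sq'
        · linarith [hg.1]
        · exact hg.2
      have e2 : 0 ≤ g ^ 2 := by positivity
      have e3 : a * g ^ 2 ≤ a * (2 * (a - 3)) ^ 2 := mul_le_mul_of_nonneg_left e1 (by linarith)
      have e4 : 0 ≤ a * g ^ 2 := by positivity
      have e5 : 1 ≤ q - a * g ^ 2 + 4 * a ^ 3 := by nlinarith
      have e6 : q - a * g ^ 2 + 4 * a ^ 3 ≤ 1 + 4 * a ^ 3 := by linarith
      have e7 : TT m * (q - a * g ^ 2 + 4 * a ^ 3) ≤ TT m * (1 + 4 * a ^ 3) :=
        mul_le_mul_of_nonneg_left e6 (by linarith [hT.1])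
      have e8 : TT m * 1 ≤ TT m * (q - a * g ^ 2 + 4 * a ^ 3) :=
        mul_le_mul_of_nonneg_left e5 (by linarith [hT.1])
      have e9 : TT m * (1 + 4 * a ^ 3) ≤ a ^ 2 * (1 + 4 * a ^ 3) :=
        mul_le_mul_of_nonneg_right hT.2 (by positivity)
      have e10 : a ^ 2 * (1 + 4 * a ^ 3) = a ^ 2 + 4 * a ^ 5 := by ring
      constructor
      · linarith [hT.1]
      · linarith [hT.2]

/-- Closed sets. -/
def Closed (r : Fin m → Fin m → Bool) (S : Set (Fin m)) : Prop :=
  ∀ i j, r i j = true → j ∈ S → i ∈ S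

/-- The stable matchings of the instance. -/
theorem inst_main (r : Fin m → Fin m → Bool) (hr : ∀ i j, r i j = true → i < j) :
    ∃ e : {S : Set (Fin m) // Closed r S} ≃
        {σ : Equiv.Perm (Fin (m * (m + 3))) // (inst r).Stable σ},
      ∀ S T, S.1 ⊆ T.1 ↔ (inst r).WLe (e S).1 (e T).1 := by
  obtain ⟨e, he⟩ := (good r hr).main
  let E : {σ : Equiv.Perm (Ag m) // Stb um (uw r) σ} ≃
      {σ : Equiv.Perm (Fin (m * (m + 3))) // (inst r).Stable σ} :=
    (nm m).permCongr.subtypeEquiv fun σ => (stable_iff r σ).symm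
  refine ⟨e.trans E, fun S T => ?_⟩
  rw [he S T]
  exact (wle_iff r (e S).1 (e T).1).symm

end Pool.SMA
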