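import Mathlib

/-!
# Stable matchings in the 2-attribute model: abstract part
-/

set_option autoImplicit false

namespace Pool.SMA

/-- `σ` is a stable matching (`σ m` is the partner of the man `m`), `um m w` and `uw w m` being the
utilities. -/
def Stb {A : Type} (um uw : A → A → ℤ) (σ : Equiv.Perm A) : Prop :=
  ∀ m w : A, ¬ (um m (σ m) < um m w ∧ uw w (σ.symm w) < uw w m)

lemma Stb.symm {A : Type} {um uw : A → A → ℤ} {σ : Equiv.Perm A} (h : Stb um uw σ) :
    Stb uw um σ.symm := by
  intro w m hb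
  rw [Equiv.symm_symm] at hb
  exact h m w ⟨hb.2, hb.1⟩

/-- A stable matching in which every woman is matched at the maximal popularity is the worst one for
the men. -/
lemma opt {A : Type} [Finite A] (um uw : A → A → ℤ) (hm : ∀ m, Function.Injective (um m))
    (hw : ∀ w, Function.Injective (uw w)) (μ M : Equiv.Perm A) (hμ : Stb um uw μ)
    (hM : Stb um uw M) (a : A → ℤ) (h1 : ∀ w m, uw w m ≤ a m) (h2 : ∀ m, uw (μ m) m = a m) :
    ∀ m, um m (μ m) ≤ um m (M m) := by
  classical
  by_contra hcon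
  push Not at hcon
  obtain ⟨m0, hm0⟩ := hcon
  have hfin : ({m | um m (M m) < um m (μ m)} : Set A).Finite := Set.toFinite _
  obtain ⟨m, hmS, hmax⟩ := Set.exists_max_image _ a hfin ⟨m0, hm0⟩
  have hmS' : um m (M m) < um m (μ m) := hmS
  have hnb := hM m (μ m)
  have h3 : ¬ uw (μ m) (M.symm (μ m)) < uw (μ m) m := fun h => hnb ⟨hmS', h⟩
  set m' := M.symm (μ m) with hm'
  have hMm' : M m' = μ m := by rw [hm', Equiv.apply_symm_apply]
  have hne : m' ≠ m := by
    intro h
    rw [h] at hMm'
    rw [hMm'] at hmS'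
    exact lt_irrefl _ hmS'
  have h4 : uw (μ m) m < uw (μ m) m' :=
    lt_of_le_of_ne (not_lt.1 h3) fun h => hne (hw _ h).symm
  have h5 : a m < a m' := by
    have := h1 (μ m) m'
    rw [h2 m] at h4
    exact lt_of_lt_of_le h4 this
  have h6 : ¬ um m' (M m') < um m' (μ m') := by
    intro h
    have := hmax m' h
    omega
  rw [hMm'] at h6
  have h7 : um m' (μ m') < um m' (μ m) := by
    refine lt_of_le_of_ne (not_lt.1 h6) fun h => hne ?_
    exact μ.injective (hm _ h)
  apply hμ m' (μ m)
  refine ⟨h7, ?_⟩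
  rw [Equiv.symm_apply_apply]
  exact h4

/-- The rotation of the stations. -/
def rot {m : ℕ} : Equiv.Perm (Fin (m + 3)) := finRotate (m + 3)

lemma rot_lt {m : ℕ} (k : Fin (m + 3)) (h : k.val < m + 2) : (rot k).val = k.val + 1 := by
  rw [rot, finRotate_of_lt h]

lemma rot_last {m : ℕ} (k : Fin (m + 3)) (h : k.val = m + 2) : (rot k).val = 0 := by
  have hk : k = Fin.last (m + 2) := Fin.ext h
  rw [rot, hk, finRotate_last]
  rfl

lemma rot_ne {m : ℕ} (k : Fin (m + 3)) : rot k ≠ k := by
  intro h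
  have h' := congrArg Fin.val h
  rcases Nat.lt_or_ge k.val (m + 2) with h1 | h1
  · rw [rot_lt k h1] at h'
    omega
  · have h2 : k.val = m + 2 := by omega
    rw [rot_last k h2] at h'
    omega

/-- Cyclic induction. -/
lemma rot_ind {m : ℕ} (Q : Fin (m + 3) → Prop) (k0 : Fin (m + 3)) (h0 : Q k0)
    (hs : ∀ k, Q k → Q (rot k)) : ∀ k, Q k := by
  have h1 : ∀ n : ℕ, Q (rot^[n] k0) := by
    intro n
    induction n with
    | zero => exact h0
    | succ n ih =>
      rw [Function.iterate_succ_apply']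
      exact hs _ ih
  have hv : ∀ n : ℕ, k0.val + n < m + 3 → (rot^[n] k0).val = k0.val + n := by
    intro n
    induction n with
    | zero =>
      intro _
      rfl
    | succ n ih =>
      intro hn
      rw [Function.iterate_succ_apply']
      have h2 := ih (by omega)
      rw [rot_lt _ (by omega), h2]
      omega
  have hz : Q ⟨0, by omega⟩ := by
    have h3 := hv (m + 2 - k0.val) (by omega)
    have h4 := h1 (m + 2 - k0.val + 1)
    rw [Function.iterate_succ_apply'] at h4
    have h5 := rot_last _ (h3.trans (by omega))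
    have h6 : rot (rot^[m + 2 - k0.val] k0) = ⟨0, by omega⟩ := Fin.ext h5
    rwa [h6] at h4
  have hv0 : ∀ n : ℕ, ∀ h : n < m + 3, Q ⟨n, h⟩ := by
    intro n
    induction n with
    | zero =>
      intro _
      exact hz
    | succ n ih =>
      intro hn
      have h7 := hs _ (ih (by omega))
      have h8 : rot (⟨n, by omega⟩ : Fin (m + 3)) = ⟨n + 1, hn⟩ :=
        Fin.ext (rot_lt _ (by change n < m + 2; omega))
      rwa [h8] at h7
  intro k
  exact hv0 k.val k.isLt

/-- The agents: a loop for each element, with `m + 3` stations. -/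
abbrev Ag (m : ℕ) : Type := Fin m × Fin (m + 3)

open Classical in
/-- The matching of a set of elements: the loops of the elements of the set are rotated. -/
noncomputable def mat {m : ℕ} (S : Set (Fin m)) : Equiv.Perm (Ag m) :=
  Equiv.prodShear (Equiv.refl _) fun i => if i ∈ S then rot else Equiv.refl _

lemma mat_in {m : ℕ} (S : Set (Fin m)) (i : Fin m) (k : Fin (m + 3)) (h : i ∈ S) :
    mat S (i, k) = (i, rot k) := by
  simp [mat, h]

lemma mat_out {m : ℕ} (S : Set (Fin m)) (i : Fin m) (k : Fin (m + 3)) (h : i ∉ S) :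
    mat S (i, k) = (i, k) := by
  simp [mat, h]

lemma mats_in {m : ℕ} (S : Set (Fin m)) (i : Fin m) (k : Fin (m + 3)) (h : i ∈ S) :
    (mat S).symm (i, k) = (i, rot.symm k) := by
  rw [Equiv.symm_apply_eq, mat_in S i _ h, Equiv.apply_symm_apply]

lemma mats_out {m : ℕ} (S : Set (Fin m)) (i : Fin m) (k : Fin (m + 3)) (h : i ∉ S) :
    (mat S).symm (i, k) = (i, k) := by
  rw [Equiv.symm_apply_eq, mat_out S i _ h]

/-- The abstract properties of the instance: `um` and `uw` are the utilities, `r` the relation. -/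
structure Good (m : ℕ) (r : Fin m → Fin m → Prop) (um uw : Ag m → Ag m → ℤ) : Prop where
  lt : ∀ i j, r i j → i.val < j.val
  injm : ∀ a, Function.Injective (um a)
  injw : ∀ a, Function.Injective (uw a)
  mdec : ∀ i k, um (i, k) (i, rot k) < um (i, k) (i, k)
  wdec : ∀ i k, uw (i, rot k) (i, rot k) < uw (i, rot k) (i, k)
  /-- mutual interest -/
  mutu : ∀ i k i' k', um (i, k) (i, rot k) ≤ um (i, k) (i', k') →
    uw (i', k') (i', k') ≤ uw (i', k') (i, k) → (i' = i ∧ k' = k) ∨ (i' = i ∧ k' = rot k) ∨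
      (k.val = m + 2 ∧ r i' i ∧ k'.val = i.val)
  /-- the coupling -/
  cm1 : ∀ i k i' k', k.val = m + 2 → r i' i → k'.val = i.val → um (i, k) (i', k') < um (i, k) (i, k)
  cm2 : ∀ i k i' k', k.val = m + 2 → r i' i → k'.val = i.val →
    um (i, k) (i, rot k) < um (i, k) (i', k')
  cw1 : ∀ i k i' k', k.val = m + 2 → r i' i → k'.val = i.val →
    uw (i', k') (i', k') < uw (i', k') (i, k)
  cw2 : ∀ i k i' k', k.val = m + 2 → r i' i → k'.val = i.val →
    uw (i', k') (i, k) < uw (i', k') (i', rot.symm k')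
  potw : ∃ a : Ag m → ℤ, (∀ w m', uw w m' ≤ a m') ∧ ∀ i k, uw (i, rot k) (i, k) = a (i, k)
  potm : ∃ b : Ag m → ℤ, (∀ m' w, um m' w ≤ b w) ∧ ∀ w, um w w = b w

variable {m : ℕ} {r : Fin m → Fin m → Prop} {um uw : Ag m → Ag m → ℤ}

/-- The closed sets of the relation. -/
def Clo (r : Fin m → Fin m → Prop) (S : Set (Fin m)) : Prop := ∀ i j, r i j → j ∈ S → i ∈ S

lemma Good.wdec' (G : Good m r um uw) (i : Fin m) (k : Fin (m + 3)) :
    uw (i, k) (i, k) < uw (i, k) (i, rot.symm k) := by
  have h := G.wdec i (rot.symm k)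
  rwa [Equiv.apply_symm_apply] at h

lemma Good.stb_of_clo (G : Good m r um uw) (S : Set (Fin m)) (hS : Clo r S) :
    Stb um uw (mat S) := by
  classical
  rintro ⟨i, k⟩ ⟨i', k'⟩ ⟨h1, h2⟩
  have h3 : um (i, k) (i, rot k) ≤ um (i, k) (mat S (i, k)) := by
    by_cases hi : i ∈ S
    · rw [mat_in S i k hi]
    · rw [mat_out S i k hi]
      exact (G.mdec i k).le
  have h4 : uw (i', k') (i', k') ≤ uw (i', k') ((mat S).symm (i', k')) := by
    by_cases hi : i' ∈ S
    · rw [mats_in S i' k' hi]
      exact (G.wdec' i' k').le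
    · rw [mats_out S i' k' hi]
  rcases G.mutu i k i' k' (h3.trans h1.le) (h4.trans h2.le) with ⟨h5, h6⟩ | ⟨h5, h6⟩ | ⟨h5, h6, h7⟩
  · subst h5 h6
    by_cases hi : i' ∈ S
    · rw [mats_in S i' k' hi] at h2
      exact absurd (G.wdec' i' k') (not_lt.2 h2.le)
    · rw [mat_out S i' k' hi] at h1
      exact lt_irrefl _ h1
  · subst h5 h6
    exact absurd h1 (not_lt.2 h3)
  · by_cases hi : i ∈ S
    · have hi' : i' ∈ S := hS i' i h6 hi
      rw [mats_in S i' k' hi'] at h2
      exact absurd (G.cw2 i k i' k' h5 h6 h7) (not_lt.2 h2.le)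
    · rw [mat_out S i k hi] at h1
      exact absurd (G.cm1 i k i' k' h5 h6 h7) (not_lt.2 h1.le)

lemma Good.clo_of_stb (G : Good m r um uw) (S : Set (Fin m)) (hS : Stb um uw (mat S)) :
    Clo r S := by
  intro i' i hr hi
  by_contra hi'
  have hlt := G.lt i' i hr
  have hb := hS (i, Fin.last (m + 2)) (i', ⟨i.val, by omega⟩)
  rw [mat_in S i _ hi, mats_out S i' _ hi'] at hb
  exact hb ⟨G.cm2 i _ i' _ rfl hr rfl, G.cw1 i _ i' _ rfl hr rfl⟩

lemma Good.clo_univ (r : Fin m → Fin m → Prop) : Clo r Set.univ := fun _ _ _ _ => trivial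

lemma Good.clo_empty (r : Fin m → Fin m → Prop) : Clo r ∅ := fun _ _ _ h => h

/-- Every stable matching rotates a set of loops. -/
lemma Good.stb_mat (G : Good m r um uw) (M : Equiv.Perm (Ag m)) (hM : Stb um uw M) :
    ∃ S : Set (Fin m), M = mat S := by
  classical
  have hU := G.stb_of_clo Set.univ (Good.clo_univ r)
  have hE := G.stb_of_clo ∅ (Good.clo_empty r)
  obtain ⟨a, ha1, ha2⟩ := G.potw
  obtain ⟨b, hb1, hb2⟩ := G.potm
  have hA : ∀ x, um x (mat Set.univ x) ≤ um x (M x) := by
    refine opt um uw G.injm G.injw (mat Set.univ) M hU hM a ha1 ?_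
    rintro ⟨i, k⟩
    rw [mat_in Set.univ i k trivial]
    exact ha2 i k
  have hB : ∀ x, uw x ((mat ∅).symm x) ≤ uw x (M.symm x) := by
    refine opt uw um G.injw G.injm (mat ∅).symm M.symm hE.symm hM.symm b hb1 ?_
    rintro ⟨i, k⟩
    rw [mats_out ∅ i k (fun h => h)]
    exact hb2 (i, k)
  -- all pairs are mutual
  have hmut : ∀ i k, M (i, k) = (i, k) ∨ M (i, k) = (i, rot k) ∨
      (k.val = m + 2 ∧ r (M (i, k)).1 i) := by
    intro i k
    have h1 := hA (i, k)
    rw [mat_in Set.univ i k trivial] at h1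
    have h2 := hB (M (i, k))
    rw [Equiv.symm_apply_apply] at h2
    obtain ⟨i', k', hik⟩ : ∃ i' k', M (i, k) = (i', k') := ⟨_, _, rfl⟩
    rw [hik] at h1 h2 ⊢
    rw [mats_out ∅ i' k' (fun h => h)] at h2
    rcases G.mutu i k i' k' h1 h2 with ⟨h5, h6⟩ | ⟨h5, h6⟩ | ⟨h5, h6, h7⟩
    · exact Or.inl (by rw [h5, h6])
    · exact Or.inr (Or.inl (by rw [h5, h6]))
    · exact Or.inr (Or.inr ⟨h5, h6⟩)
  -- loops are closed under `M`
  have hloop : ∀ n : ℕ, ∀ i : Fin m, m - i.val ≤ n → ∀ k, (M (i, k)).1 = i := by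
    intro n
    induction n with
    | zero =>
      intro i hi k
      exact absurd hi (by omega)
    | succ n ih =>
      intro i hi
      -- the women of the loop `i` are matched with men of the loop `i`
      have hw : ∀ k, (M.symm (i, k)).1 = i := by
        intro k
        obtain ⟨i', k', hik⟩ : ∃ i' k', M.symm (i, k) = (i', k') := ⟨_, _, rfl⟩
        have hM' : M (i', k') = (i, k) := by rw [← hik, Equiv.apply_symm_apply]
        rw [hik]
        rcases hmut i' k' with h | h | ⟨-, h⟩
        · rw [hM'] at h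
          exact (congrArg Prod.fst h).symm
        · rw [hM'] at h
          exact (congrArg Prod.fst h).symm
        · rw [hM'] at h
          have hlt := G.lt _ _ h
          have h8 := ih i' (by
            have : i.val < i'.val := hlt
            omega) k'
          rw [hM'] at h8
          exact h8.symm
      -- hence the men of the loop `i` are matched with women of the loop `i`
      let f : Fin (m + 3) → Fin (m + 3) := fun k => (M.symm (i, k)).2
      have hf : ∀ k, M.symm (i, k) = (i, f k) := fun k => Prod.ext (hw k) rfl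
      have hfinj : Function.Injective f := by
        intro k1 k2 h
        have h9 : M.symm (i, k1) = M.symm (i, k2) := by rw [hf, hf, h]
        have := M.symm.injective h9
        exact (Prod.mk.inj this).2
      have hfsur : Function.Surjective f := Finite.surjective_of_injective hfinj
      intro k
      obtain ⟨k1, hk1⟩ := hfsur k
      have h10 := hf k1
      rw [hk1, Equiv.symm_apply_eq] at h10
      rw [← h10]
  have hloop' : ∀ i k, (M (i, k)).1 = i := fun i k => hloop (m - i.val) i le_rfl k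
  have hmut' : ∀ i k, M (i, k) = (i, k) ∨ M (i, k) = (i, rot k) := by
    intro i k
    rcases hmut i k with h | h | ⟨-, h⟩
    · exact Or.inl h
    · exact Or.inr h
    · rw [hloop' i k] at h
      exact absurd (G.lt i i h) (lt_irrefl _)
  refine ⟨{i | ∃ k, M (i, k) = (i, rot k)}, ?_⟩
  ext1 ⟨i, k⟩
  by_cases hi : i ∈ {i | ∃ k, M (i, k) = (i, rot k)}
  · rw [mat_in _ i k hi]
    obtain ⟨k0, hk0⟩ := hi
    refine rot_ind (fun k => M (i, k) = (i, rot k)) k0 hk0 ?_ k
    intro k hk
    rcases hmut' i (rot k) with h | h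
    · exfalso
      have h1 : M (i, k) = M (i, rot k) := by rw [hk, h]
      have h2 := (Prod.mk.inj (M.injective h1)).2
      exact rot_ne k h2.symm
    · exact h
  · rw [mat_out _ i k hi]
    rcases hmut' i k with h | h
    · exact h
    · exact absurd ⟨k, h⟩ hi

lemma mat_inj (S T : Set (Fin m)) (h : mat S = mat T) : S = T := by
  have key : ∀ S T : Set (Fin m), mat S = mat T → S ⊆ T := by
    intro S T h i hi
    by_contra hi'
    have h1 := congrArg (fun e : Equiv.Perm (Ag m) => e (i, Fin.last (m + 2))) h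
    change mat S (i, Fin.last (m + 2)) = mat T (i, Fin.last (m + 2)) at h1
    rw [mat_in S i _ hi, mat_out T i _ hi'] at h1
    exact rot_ne _ (Prod.mk.inj h1).2
  exact Set.Subset.antisymm (key S T h) (key T S h.symm)

/-- The main abstract theorem. -/
theorem Good.main (G : Good m r um uw) :
    ∃ e : {S : Set (Fin m) // Clo r S} ≃ {σ : Equiv.Perm (Ag m) // Stb um uw σ},
      ∀ S T, S.1 ⊆ T.1 ↔ ∀ w, uw w ((e S).1.symm w) ≤ uw w ((e T).1.symm w) := by
  classical
  let f : {S : Set (Fin m) // Clo r S} → {σ : Equiv.Perm (Ag m) // Stb um uw σ} :=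
    fun S => ⟨mat S.1, G.stb_of_clo S.1 S.2⟩
  have hf : Function.Bijective f := by
    constructor
    · intro S T h
      exact Subtype.ext (mat_inj S.1 T.1 (congrArg Subtype.val h))
    · rintro ⟨M, hM⟩
      obtain ⟨S, hS⟩ := G.stb_mat M hM
      refine ⟨⟨S, G.clo_of_stb S (hS ▸ hM)⟩, Subtype.ext hS.symm⟩
  refine ⟨Equiv.ofBijective f hf, ?_⟩
  intro S T
  change S.1 ⊆ T.1 ↔ ∀ w, uw w ((mat S.1).symm w) ≤ uw w ((mat T.1).symm w)
  constructor
  · rintro h ⟨i, k⟩
    by_cases hi : i ∈ S.1
    · rw [mats_in _ i k hi, mats_in _ i k (h hi)]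
    · rw [mats_out _ i k hi]
      by_cases hi' : i ∈ T.1
      · rw [mats_in _ i k hi']
        exact (G.wdec' i k).le
      · rw [mats_out _ i k hi']
  · intro h i hi
    by_contra hi'
    have h1 := h (i, Fin.last (m + 2))
    rw [mats_in _ i _ hi, mats_out _ i _ hi'] at h1
    exact absurd (G.wdec' i (Fin.last (m + 2))) (not_lt.2 h1)

end Pool.SMA
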