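import Pool.Agent.H19.SMA.Core

/-!
# Stable matchings in the 2-attribute model: the instance
-/

set_option autoImplicit false

namespace Pool.SMA

variable {m : ℕ}

/-- Block number of the place number `k` of the loop `i`. -/
def bq (i : Fin m) (k : ℕ) : ℕ :=
  if k = 0 ∨ k = m + 2 then i.val + 1 else if k ≤ i.val then i.val + 1
  else if k < m then k + 1 else m + i.val + 1

/-- Offset of the place number `k` of the loop `i`. -/
def bo (r : Fin m → Fin m → Bool) (i : Fin m) (k : ℕ) : ℕ :=
  if k = 0 ∨ k = m + 2 then 0 else if k ≤ i.val then k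
  else if h : k < m then (if r i ⟨k, h⟩ then 0 else 1) else if k = m then 0 else 1

/-- The place number `k` of the loop `i`. -/
def pl (r : Fin m → Fin m → Bool) (i : Fin m) (k : ℕ) : ℤ :=
  ((m : ℤ) + 3) * (bq i k : ℤ) + (bo r i k : ℤ)

lemma bo_le (r : Fin m → Fin m → Bool) (i : Fin m) (k : ℕ) : bo r i k ≤ m := by
  have hi := i.isLt
  unfold bo
  split_ifs <;> omega

lemma bq_top (i : Fin m) : bq i (m + 1) = m + i.val + 1 := by
  have hi := i.isLt
  rw [bq, if_neg (by omega), if_neg (by omega), if_neg (by omega)]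

lemma bo_top (r : Fin m → Fin m → Bool) (i : Fin m) : bo r i (m + 1) = 1 := by
  have hi := i.isLt
  rw [bo, if_neg (by omega), if_neg (by omega), dif_neg (by omega), if_neg (by omega)]

lemma bq_m (i : Fin m) : bq i m = m + i.val + 1 := by
  have hi := i.isLt
  rw [bq, if_neg (by omega), if_neg (by omega), if_neg (by omega)]

lemma bo_m (r : Fin m → Fin m → Bool) (i : Fin m) : bo r i m = 0 := by
  have hi := i.isLt
  rw [bo, if_neg (by omega), if_neg (by omega), dif_neg (by omega), if_pos rfl]

lemma blk {a b : ℕ} (h : a < b) : ((m : ℤ) + 3) * (a : ℤ) + ((m : ℤ) + 3) ≤ ((m : ℤ) + 3) * (b : ℤ) := by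
  have h1 : (a : ℤ) + 1 ≤ (b : ℤ) := by exact_mod_cast h
  nlinarith

lemma pl_first (r : Fin m → Fin m → Bool) (i : Fin m) : pl r i 0 = ((m : ℤ) + 3) * ((i.val + 1 : ℕ) : ℤ) := by
  simp [pl, bq, bo]

lemma pl_last (r : Fin m → Fin m → Bool) (i : Fin m) : pl r i (m + 2) = pl r i 0 := by
  simp [pl, bq, bo]

lemma pl_mono (r : Fin m → Fin m → Bool) (i : Fin m) {k k' : ℕ} (h : k < k') (h' : k' ≤ m + 1) :
    pl r i k < pl r i k' := by
  have hi := i.isLt
  have h1 := bo_le r i k
  have h2 : bq i k < bq i k' ∨ (bq i k = bq i k' ∧ bo r i k < bo r i k') := by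
    unfold bq bo
    split_ifs <;> omega
  unfold pl
  rcases h2 with h2 | ⟨h2, h3⟩
  · have h3 := blk (m := m) h2
    have h4 : (bo r i k : ℤ) ≤ m := by exact_mod_cast h1
    have h5 : (0 : ℤ) ≤ (bo r i k' : ℤ) := by positivity
    linarith
  · rw [h2]
    have h4 : (bo r i k : ℤ) < (bo r i k' : ℤ) := by exact_mod_cast h3
    linarith

lemma pl_priv (r : Fin m → Fin m → Bool) (i i' : Fin m) (k' : ℕ) (hk' : k' ≤ m + 2)
    (h : (pl r i' k' - pl r i (m + 1)) ^ 2 ≤ 1) : i' = i ∧ (k' = m ∨ k' = m + 1) := by
  have hi := i.isLt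
  have hi' := i'.isLt
  have h1 : |pl r i' k' - pl r i (m + 1)| ≤ 1 := by
    rw [← abs_one (α := ℤ)]
    exact sq_le_sq.1 (by rw [one_pow]; exact h)
  rw [abs_le] at h1
  have hq := bq_top i
  have ho := bo_top r i
  have hpl : pl r i (m + 1) = ((m : ℤ) + 3) * ((m + i.val + 1 : ℕ) : ℤ) + 1 := by
    unfold pl
    rw [hq, ho]
    rfl
  rw [hpl] at h1
  unfold pl at h1
  have h2 := bo_le r i' k'
  have h3 : (bo r i' k' : ℤ) ≤ m := by exact_mod_cast h2
  have h4 : (0 : ℤ) ≤ (bo r i' k' : ℤ) := by positivity
  have h5 : (0 : ℤ) ≤ (m : ℤ) := by positivity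
  have hqq : bq i' k' = m + i.val + 1 := by
    rcases Nat.lt_trichotomy (bq i' k') (m + i.val + 1) with h6 | h6 | h6
    · have := blk (m := m) h6
      exfalso
      linarith [h1.1]
    · exact h6
    · have := blk (m := m) h6
      exfalso
      linarith [h1.2]
  have hbq : bq i' k' = m + i.val + 1 → i'.val = i.val ∧ (k' = m ∨ k' = m + 1) := by
    unfold bq
    split_ifs <;> omega
  obtain ⟨h7, h8⟩ := hbq hqq
  exact ⟨Fin.ext h7, h8⟩

lemma pl_gap (r : Fin m → Fin m → Bool) (i : Fin m) : pl r i (m + 1) - pl r i m = 1 := by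
  have hi := i.isLt
  have hq := bq_top i
  have ho := bo_top r i
  have hq' := bq_m i
  have ho' := bo_m r i
  unfold pl
  rw [hq, ho, hq', ho']
  push_cast
  ring

lemma pl_pub (r : Fin m → Fin m → Bool) (i i' : Fin m) (k' : ℕ) (hk' : k' ≤ m + 2)
    (h : pl r i' k' = pl r i 0) :
    (i' = i ∧ (k' = 0 ∨ k' = m + 2)) ∨ (r i' i = true ∧ k' = i.val) := by
  have hi := i.isLt
  have hi' := i'.isLt
  rw [pl_first] at h
  unfold pl at h
  have h2 := bo_le r i' k'
  have h3 : (bo r i' k' : ℤ) ≤ m := by exact_mod_cast h2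
  have h4 : (0 : ℤ) ≤ (bo r i' k' : ℤ) := by positivity
  have hqq : bq i' k' = i.val + 1 := by
    rcases Nat.lt_trichotomy (bq i' k') (i.val + 1) with h6 | h6 | h6
    · have := blk (m := m) h6
      exfalso
      linarith
    · exact h6
    · have := blk (m := m) h6
      exfalso
      linarith
  rw [hqq] at h
  have ho : bo r i' k' = 0 := by
    have : (bo r i' k' : ℤ) = 0 := by linarith
    exact_mod_cast this
  by_cases c1 : k' = 0 ∨ k' = m + 2
  · left
    unfold bq at hqq
    rw [if_pos c1] at hqq
    exact ⟨Fin.ext (by omega), c1⟩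
  · by_cases c2 : k' ≤ i'.val
    · unfold bo at ho
      rw [if_neg c1, if_pos c2] at ho
      omega
    · by_cases c3 : k' < m
      · right
        unfold bq at hqq
        rw [if_neg c1, if_neg c2, if_pos c3] at hqq
        have hk : k' = i.val := by omega
        subst hk
        unfold bo at ho
        rw [if_neg c1, if_neg c2, dif_pos c3] at ho
        have : (⟨i.val, c3⟩ : Fin m) = i := rfl
        rw [this] at ho
        refine ⟨?_, rfl⟩
        by_contra hr
        simp [hr] at ho
      · exfalso
        unfold bq at hqq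
        rw [if_neg c1, if_neg c2, if_neg c3] at hqq
        omega

lemma pl_rel (r : Fin m → Fin m → Bool) (i i' : Fin m) (hlt : i'.val < i.val)
    (h : r i' i = true) : pl r i' i.val = pl r i 0 := by
  have hi := i.isLt
  rw [pl_first]
  have hq : bq i' i.val = i.val + 1 := by
    unfold bq
    split_ifs <;> omega
  have ho : bo r i' i.val = 0 := by
    unfold bo
    rw [if_neg (by omega), if_neg (by omega), dif_pos hi]
    have : (⟨i.val, hi⟩ : Fin m) = i := rfl
    rw [this, if_pos h]
  unfold pl
  rw [hq, ho]
  push_cast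
  ring

lemma pl_back (r : Fin m → Fin m → Bool) (i : Fin m) : pl r i 0 < pl r i (m + 1) :=
  pl_mono r i (by omega) le_rfl

/-- The next place. -/
def nx (m k : ℕ) : ℕ := if k < m + 2 then k + 1 else 0

lemma rot_val (k : Fin (m + 3)) : (rot k).val = nx m k.val := by
  unfold nx
  split_ifs with h
  · exact rot_lt k h
  · exact rot_last k (by omega)

/-- Place of a woman (and look of a man) in the space of the women. -/
def gw (m i k : ℕ) : ℤ := if k ≤ m then (m : ℤ) - i else (m : ℤ) + 1 + i

/-- Popularity of a woman. -/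
def sw (m k : ℕ) : ℤ := if k ≤ m then -(k : ℤ) else if k = m + 1 then 1 else 0

/-- Popularity of a man. -/
def sm (r : Fin m → Fin m → Bool) (i : Fin m) (k : ℕ) : ℤ :=
  if k = m + 2 then 0 else 2 * (pl r i (nx m k) - pl r i k) ^ 2 - 1

/-- Utility of a woman for a man. -/
def VV (i : Fin m) (k : ℕ) (i' : Fin m) (k' : ℕ) : ℤ :=
  sw m k' - ((m : ℤ) + 3) * (gw m i.val k - gw m i'.val k') ^ 2

/-- Utility of a man for a woman. -/
def UU (r : Fin m → Fin m → Bool) (i' : Fin m) (k' : ℕ) (i : Fin m) (k : ℕ) : ℤ :=
  sm r i k - 2 * (pl r i' k' - pl r i (nx m k)) ^ 2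

lemma sw_le (m k : ℕ) : sw m k ≤ 1 := by
  unfold sw
  split_ifs <;> omega

lemma VV_self (i : Fin m) (k : ℕ) : VV i k i k = sw m k := by
  unfold VV
  ring

lemma VV_le (i : Fin m) (k : ℕ) (i' : Fin m) (k' : ℕ) (h : gw m i.val k ≠ gw m i'.val k') :
    VV i k i' k' ≤ -((m : ℤ) + 2) := by
  unfold VV
  have h1 := sw_le m k'
  have h2 : 1 ≤ (gw m i.val k - gw m i'.val k') ^ 2 := by
    have h3 : gw m i.val k - gw m i'.val k' ≠ 0 := sub_ne_zero.2 h
    have h4 : 0 < (gw m i.val k - gw m i'.val k') ^ 2 := by positivity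
    omega
  have h5 : (0 : ℤ) ≤ m := by positivity
  nlinarith

lemma UU_self (r : Fin m → Fin m → Bool) (i : Fin m) (k : ℕ) (hk : k ≤ m + 1) :
    UU r i k i k = -1 := by
  unfold UU sm
  rw [if_neg (by omega)]
  ring

lemma UU_self_last (r : Fin m → Fin m → Bool) (i : Fin m) : UU r i (m + 2) i (m + 2) = 0 := by
  have h : nx m (m + 2) = 0 := by
    unfold nx
    rw [if_neg (lt_irrefl _)]
  unfold UU sm
  rw [if_pos rfl, h, pl_last]
  ring

lemma UU_self_ge (r : Fin m → Fin m → Bool) (i : Fin m) (k : ℕ) (hk : k ≤ m + 2) :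
    -1 ≤ UU r i k i k := by
  by_cases h : k ≤ m + 1
  · rw [UU_self r i k h]
  · have : k = m + 2 := by omega
    rw [this, UU_self_last]
    norm_num

lemma UU_prev (r : Fin m → Fin m → Bool) (i : Fin m) (k : ℕ) : UU r i (nx m k) i k = sm r i k := by
  unfold UU
  ring

lemma sm_pos (r : Fin m → Fin m → Bool) (i : Fin m) (k : ℕ) (hk : k ≤ m + 1) :
    1 ≤ sm r i k := by
  have hne : pl r i (nx m k) - pl r i k ≠ 0 := by
    unfold nx
    rw [if_pos (by omega)]
    by_cases h : k ≤ m
    · have := pl_mono r i (by omega : k < k + 1) (by omega)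
      omega
    · have h1 : k = m + 1 := by omega
      rw [h1, pl_last]
      have := pl_back r i
      omega
  unfold sm
  rw [if_neg (by omega)]
  have : 0 < (pl r i (nx m k) - pl r i k) ^ 2 := by positivity
  omega

/-- The classification of the mutual pairs. -/
lemma classify (r : Fin m → Fin m → Bool) (i : Fin m) (k : ℕ) (hk : k ≤ m + 2) (i' : Fin m)
    (k' : ℕ) (hk' : k' ≤ m + 2) (h1 : VV i k i (nx m k) ≤ VV i k i' k')
    (h2 : UU r i' k' i' k' ≤ UU r i' k' i k) :
    (i' = i ∧ k' = k) ∨ (i' = i ∧ k' = nx m k) ∨ (k = m + 2 ∧ r i' i = true ∧ k' = i.val) := by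
  have hi := i.isLt
  have hi' := i'.isLt
  have hself := UU_self_ge r i' k' hk'
  rcases Nat.lt_trichotomy k m with c | c | c
  · -- ordinary station
    have hnx : nx m k = k + 1 := by
      unfold nx
      rw [if_pos (by omega)]
    have hg : gw m i.val k = gw m i'.val k' := by
      by_contra hne
      have h3 := VV_le i k i' k' hne
      have h4 : VV i k i (k + 1) = -((k : ℤ) + 1) := by
        unfold VV gw sw
        rw [if_pos (by omega), if_pos (by omega), if_pos (by omega)]
        push_cast
        ring
      rw [hnx, h4] at h1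
      omega
    have hii : i'.val = i.val ∧ k' ≤ m := by
      unfold gw at hg
      split_ifs at hg <;> omega
    obtain ⟨h5, h6⟩ := hii
    have h5' : i' = i := Fin.ext h5
    subst h5'
    have h7 : k' ≤ k + 1 := by
      rw [hnx] at h1
      unfold VV gw sw at h1
      rw [if_pos (by omega), if_pos (by omega), if_pos (by omega), if_pos (by omega),
        if_pos (by omega)] at h1
      simp only [sub_self] at h1
      push_cast at h1
      omega
    rcases Nat.lt_trichotomy k' k with d | d | d
    · exfalso
      rw [UU_self r i' k' (by omega)] at h2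
      unfold UU sm at h2
      rw [if_neg (by omega), hnx] at h2
      have e1 := pl_mono r i' d (by omega)
      have e2 := pl_mono r i' (by omega : k < k + 1) (by omega)
      nlinarith
    · exact Or.inl ⟨rfl, d⟩
    · exact Or.inr (Or.inl ⟨rfl, by omega⟩)
  · -- station `m`
    subst c
    have hnx : nx k k = k + 1 := by
      unfold nx
      rw [if_pos (by omega)]
    have h3 : UU r i' k' i k = 1 - 2 * (pl r i' k' - pl r i (k + 1)) ^ 2 := by
      unfold UU sm
      rw [if_neg (by omega), hnx, pl_gap]
      ring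
    rw [h3] at h2
    have h4 : (pl r i' k' - pl r i (k + 1)) ^ 2 ≤ 1 := by linarith
    obtain ⟨h5, h6 | h6⟩ := pl_priv r i i' k' hk' h4
    · exact Or.inl ⟨h5, h6⟩
    · exact Or.inr (Or.inl ⟨h5, by rw [hnx]; exact h6⟩)
  · rcases Nat.lt_or_ge k (m + 2) with d | d
    · -- station `m + 1`
      have hk1 : k = m + 1 := by omega
      subst hk1
      have hnx : nx m (m + 1) = m + 2 := by
        unfold nx
        rw [if_pos (by omega)]
      have h3 : VV i (m + 1) i (m + 2) = 0 := by
        unfold VV gw sw
        rw [if_neg (by omega), if_neg (by omega), if_neg (by omega), if_neg (by omega)]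
        ring
      rw [hnx, h3] at h1
      have hg : gw m i.val (m + 1) = gw m i'.val k' := by
        by_contra hne
        have h4 := VV_le i (m + 1) i' k' hne
        omega
      have hii : i'.val = i.val ∧ m < k' := by
        unfold gw at hg
        split_ifs at hg <;> omega
      rcases Nat.lt_or_ge k' (m + 2) with e | e
      · exact Or.inl ⟨Fin.ext hii.1, by omega⟩
      · exact Or.inr (Or.inl ⟨Fin.ext hii.1, by rw [hnx]; omega⟩)
    · -- last station
      have hk2 : k = m + 2 := by omega
      subst hk2
      have hnx : nx m (m + 2) = 0 := by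
        unfold nx
        rw [if_neg (lt_irrefl _)]
      have h3 : UU r i' k' i (m + 2) = -2 * (pl r i' k' - pl r i 0) ^ 2 := by
        unfold UU sm
        rw [if_pos rfl, hnx]
        ring
      rw [h3] at h2
      have h4 : (pl r i' k' - pl r i 0) ^ 2 = 0 := by
        have : 0 ≤ (pl r i' k' - pl r i 0) ^ 2 := by positivity
        omega
      have h5 : pl r i' k' = pl r i 0 := by
        have := pow_eq_zero_iff (two_ne_zero) |>.1 h4
        linarith
      rcases pl_pub r i i' k' hk' h5 with ⟨h6, h7 | h7⟩ | ⟨h6, h7⟩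
      · exact Or.inr (Or.inl ⟨h6, by rw [hnx]; exact h7⟩)
      · exact Or.inl ⟨h6, h7⟩
      · exact Or.inr (Or.inr ⟨rfl, h6, h7⟩)

/-- The tie breaking numbers. -/
def tie (a : Ag m) : ℤ := (a.1.val : ℤ) * (m + 3) + a.2.val

/-- The number of agents. -/
def TT (m : ℕ) : ℤ := (m : ℤ) * (m + 3)

lemma tie_nonneg (a : Ag m) : 0 ≤ tie a := by
  unfold tie
  positivity

lemma tie_lt (a : Ag m) : tie a < TT m := by
  unfold tie TT
  have h1 := a.1.isLt
  have h2 := a.2.isLt
  have h3 : (a.1.val : ℤ) + 1 ≤ m := by exact_mod_cast h1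
  have h4 : (a.2.val : ℤ) < m + 3 := by exact_mod_cast h2
  nlinarith

lemma tie_inj : Function.Injective (tie : Ag m → ℤ) := by
  rintro ⟨i, k⟩ ⟨i', k'⟩ h
  unfold tie at h
  have h' : i.val * (m + 3) + k.val = i'.val * (m + 3) + k'.val := by exact_mod_cast h
  have hk := k.isLt
  have hk' := k'.isLt
  have h1 : i.val = i'.val := by
    have e1 : (i.val * (m + 3) + k.val) / (m + 3) = i.val := by
      rw [Nat.mul_comm, Nat.mul_add_div (by omega), Nat.div_eq_of_lt hk, Nat.add_zero]
    have e2 : (i'.val * (m + 3) + k'.val) / (m + 3) = i'.val := by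
      rw [Nat.mul_comm, Nat.mul_add_div (by omega), Nat.div_eq_of_lt hk', Nat.add_zero]
    rw [← e1, ← e2, h']
  have h2 : k.val = k'.val := by
    rw [h1] at h'
    omega
  exact Prod.ext (Fin.ext h1) (Fin.ext h2)

/-- Utility of a woman for a man, with tie breaking. -/
def um (a w : Ag m) : ℤ := TT m * VV a.1 a.2.val w.1 w.2.val + tie w

/-- Utility of a man for a woman, with tie breaking. -/
def uw (r : Fin m → Fin m → Bool) (w a : Ag m) : ℤ := TT m * UU r w.1 w.2.val a.1 a.2.val + tie a

lemma lex_lt {v v' : ℤ} (a a' : Ag m) (h : v < v') : TT m * v + tie a < TT m * v' + tie a' := by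
  have h1 := tie_lt a
  have h2 := tie_nonneg a'
  have h3 := tie_nonneg a
  have h4 : v + 1 ≤ v' := h
  nlinarith

lemma lex_le {v v' : ℤ} (a a' : Ag m) (h : TT m * v + tie a ≤ TT m * v' + tie a') : v ≤ v' := by
  by_contra hc
  exact absurd (lex_lt a' a (not_le.1 hc)) (not_lt.2 h)

lemma lex_inj {v v' : ℤ} (a a' : Ag m) (h : TT m * v + tie a = TT m * v' + tie a') : a = a' := by
  have h1 := lex_le a a' h.le
  have h2 := lex_le a' a h.ge
  have h3 : v = v' := le_antisymm h1 h2
  rw [h3] at h
  exact tie_inj (by linarith)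

/-- The instance has the abstract properties. -/
theorem good (r : Fin m → Fin m → Bool) (hr : ∀ i j, r i j = true → i.val < j.val) :
    Good m (fun i j => r i j = true) um (uw r) where
  lt := hr
  injm := fun a w w' h => lex_inj w w' h
  injw := fun w a a' h => lex_inj a a' h
  mdec := by
    intro i k
    have hk := k.isLt
    unfold um
    refine lex_lt _ _ ?_
    change VV i k.val i (rot k).val < VV i k.val i k.val
    rw [rot_val, VV_self]
    rcases Nat.lt_trichotomy k.val m with c | c | c
    · have hnx : nx m k.val = k.val + 1 := by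
        unfold nx
        rw [if_pos (by omega)]
      rw [hnx]
      unfold VV gw sw
      rw [if_pos (by omega), if_pos (by omega), if_pos (by omega), if_pos (by omega)]
      push_cast
      nlinarith
    · have hnx : nx m k.val = m + 1 := by
        unfold nx
        rw [if_pos (by omega), c]
      have h1 := VV_le i k.val i (nx m k.val) (by
        rw [hnx]
        unfold gw
        rw [if_pos (by omega), if_neg (by omega)]
        omega)
      have h2 : sw m k.val = -(k.val : ℤ) := by
        unfold sw
        rw [if_pos (by omega)]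
      rw [h2]
      omega
    · rcases Nat.lt_or_ge k.val (m + 2) with d | d
      · have hk1 : k.val = m + 1 := by omega
        have hnx : nx m k.val = m + 2 := by
          unfold nx
          rw [if_pos (by omega), hk1]
        rw [hnx, hk1]
        unfold VV gw sw
        rw [if_neg (by omega), if_neg (by omega), if_neg (by omega), if_neg (by omega),
          if_neg (by omega), if_pos rfl]
        nlinarith
      · have hk1 : k.val = m + 2 := by omega
        have hnx : nx m k.val = 0 := by
          unfold nx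
          rw [if_neg (by omega)]
        have h1 := VV_le i k.val i (nx m k.val) (by
          rw [hnx, hk1]
          unfold gw
          rw [if_neg (by omega), if_pos (by omega)]
          omega)
        have h2 : sw m k.val = 0 := by
          unfold sw
          rw [if_neg (by omega), if_neg (by omega)]
        rw [h2]
        omega
  wdec := by
    intro i k
    have hk := k.isLt
    unfold uw
    refine lex_lt _ _ ?_
    change UU r i (rot k).val i (rot k).val < UU r i (rot k).val i k.val
    rw [rot_val, UU_prev]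
    by_cases c : k.val ≤ m + 1
    · have h1 := sm_pos r i k.val c
      have hnx : nx m k.val = k.val + 1 := by
        unfold nx
        rw [if_pos (by omega)]
      rw [hnx]
      by_cases d : k.val + 1 ≤ m + 1
      · rw [UU_self r i _ d]
        omega
      · have : k.val + 1 = m + 2 := by omega
        rw [this, UU_self_last]
        omega
    · have hk1 : k.val = m + 2 := by omega
      have hnx : nx m k.val = 0 := by
        unfold nx
        rw [if_neg (by omega)]
      rw [hnx, UU_self r i 0 (by omega), hk1]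
      unfold sm
      rw [if_pos rfl]
      norm_num
  mutu := by
    intro i k i' k' h1 h2
    have hk := k.isLt
    have hk' := k'.isLt
    have h1' := lex_le _ _ h1
    have h2' := lex_le _ _ h2
    change VV i k.val i (rot k).val ≤ VV i k.val i' k'.val at h1'
    rw [rot_val] at h1'
    rcases classify r i k.val (by omega) i' k'.val (by omega) h1' h2' with ⟨h3, h4⟩ | ⟨h3, h4⟩ | h3
    · exact Or.inl ⟨h3, Fin.ext h4⟩
    · exact Or.inr (Or.inl ⟨h3, Fin.ext (h4.trans (rot_val k).symm)⟩)
    · exact Or.inr (Or.inr h3)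
  cm1 := by
    intro i k i' k' h1 h2 h3
    have hi := i.isLt
    have hlt := hr i' i h2
    unfold um
    refine lex_lt _ _ ?_
    change VV i k.val i' k'.val < VV i k.val i k.val
    rw [VV_self]
    have h4 := VV_le i k.val i' k'.val (by
      rw [h1, h3]
      unfold gw
      rw [if_neg (by omega), if_pos (by omega)]
      omega)
    have h5 : sw m k.val = 0 := by
      unfold sw
      rw [if_neg (by omega), if_neg (by omega)]
    rw [h5]
    omega
  cm2 := by
    intro i k i' k' h1 h2 h3
    have hi := i.isLt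
    have hlt := hr i' i h2
    unfold um
    refine lex_lt _ _ ?_
    change VV i k.val i (rot k).val < VV i k.val i' k'.val
    have hnx : nx m k.val = 0 := by
      unfold nx
      rw [if_neg (by omega)]
    rw [rot_val, hnx, h1, h3]
    have g1 : gw m i.val (m + 2) = (m : ℤ) + 1 + i.val := by
      unfold gw
      rw [if_neg (by omega)]
    have g2 : gw m i.val 0 = (m : ℤ) - i.val := by
      unfold gw
      rw [if_pos (by omega)]
    have g3 : gw m i'.val i.val = (m : ℤ) - i'.val := by
      unfold gw
      rw [if_pos (by omega)]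
    have s1 : sw m 0 = 0 := by
      unfold sw
      rw [if_pos (by omega)]
      norm_num
    have s2 : sw m i.val = -(i.val : ℤ) := by
      unfold sw
      rw [if_pos (by omega)]
    unfold VV
    rw [g1, g2, g3, s1, s2]
    have e1 : (i'.val : ℤ) + 1 ≤ i.val := by exact_mod_cast hlt
    have e2 : (i.val : ℤ) + 1 ≤ m := by exact_mod_cast hi
    have e3 : (0 : ℤ) ≤ i'.val := by positivity
    have e4 : ((m : ℤ) + 1 + i.val - (m - i'.val)) ^ 2 + 2 ≤
        ((m : ℤ) + 1 + i.val - (m - i.val)) ^ 2 := by
      nlinarith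
    nlinarith
  cw1 := by
    intro i k i' k' h1 h2 h3
    have hi := i.isLt
    have hlt := hr i' i h2
    unfold uw
    refine lex_lt _ _ ?_
    change UU r i' k'.val i' k'.val < UU r i' k'.val i k.val
    have hnx : nx m k.val = 0 := by
      unfold nx
      rw [if_neg (by omega)]
    rw [UU_self r i' k'.val (by omega)]
    unfold UU sm
    rw [if_pos h1, hnx, h3, pl_rel r i i' hlt h2]
    norm_num
  cw2 := by
    intro i k i' k' h1 h2 h3
    have hi := i.isLt
    have hlt := hr i' i h2
    unfold uw
    refine lex_lt _ _ ?_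
    change UU r i' k'.val i k.val < UU r i' k'.val i' (rot.symm k').val
    have hnx : nx m k.val = 0 := by
      unfold nx
      rw [if_neg (by omega)]
    obtain ⟨p, hp⟩ : ∃ p, rot p = k' := ⟨rot.symm k', Equiv.apply_symm_apply _ _⟩
    have hp' : rot.symm k' = p := by rw [← hp, Equiv.symm_apply_apply]
    have hpv := rot_val p
    rw [hp] at hpv
    rw [hp']
    have hpl := p.isLt
    have hple : p.val ≤ m + 1 := by
      by_contra hc
      have h6 : nx m p.val = 0 := by
        unfold nx
        rw [if_neg (by omega)]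
      omega
    have h7 : UU r i' k'.val i' p.val = sm r i' p.val := by
      rw [hpv, UU_prev]
    rw [h7]
    have h8 := sm_pos r i' p.val hple
    have h9 : UU r i' k'.val i k.val = 0 := by
      unfold UU sm
      rw [if_pos h1, hnx, h3, pl_rel r i i' hlt h2]
      norm_num
    rw [h9]
    omega
  potw := by
    refine ⟨fun a => TT m * sm r a.1 a.2.val + tie a, ?_, ?_⟩
    · intro w a
      unfold uw UU
      have h1 : (0 : ℤ) ≤ TT m := by
        unfold TT
        positivity
      have h2 : (0 : ℤ) ≤ (pl r w.1 w.2.val - pl r a.1 (nx m a.2.val)) ^ 2 := by positivity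
      nlinarith
    · intro i k
      unfold uw
      change TT m * UU r i (rot k).val i k.val + tie (i, k) = _
      rw [rot_val, UU_prev]
  potm := by
    refine ⟨fun w => TT m * sw m w.2.val + tie w, ?_, ?_⟩
    · intro a w
      unfold um VV
      have h1 : (0 : ℤ) ≤ TT m := by
        unfold TT
        positivity
      have h2 : (0 : ℤ) ≤ (gw m a.1.val a.2.val - gw m w.1.val w.2.val) ^ 2 := by positivity
      have h3 : (0 : ℤ) ≤ (m : ℤ) + 3 := by positivity
      have h4 := mul_nonneg h1 (mul_nonneg h3 h2)
      nlinarith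
    · intro w
      unfold um
      rw [VV_self]

end Pool.SMA
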